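import Pool.Agent.LearnDeg.Main

/-!
# Q1: the seven degree structures are pairwise not elementarily equivalent

`classes Φ i`, for `i : Fin 7`, are the classes `(1,1)`, `(1,<ω)`, `(1,ω|<ω)`, `(1,ω)`, `(<ω,1)`,
`(<ω,ω)`, `(ω,1)` formed with the enumeration `Φ` of the computable functionals, and
`Deg (classes Φ i)` is the power set of Baire space modulo mutual reducibility with the induced
order. The result holds for every acceptable enumeration `Φ`; one exists.
-/

namespace Pool.Agent.Results.MP_a51f10_lc.PairwiseInequivalent

open Pool.Agent.LearnDeg FirstOrder

/-- Acceptable enumerations exist, and for each of them the seven reducibilities are preorders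
and their degree structures are pairwise not elementarily equivalent as partial orders. -/
theorem result : (∃ Φ, Acceptable Φ) ∧ ∀ Φ, Acceptable Φ →
    (∀ i, (∀ P, Red (classes Φ i) P P) ∧
      ∀ P Q R, Red (classes Φ i) P Q → Red (classes Φ i) Q R → Red (classes Φ i) P R) ∧
    ∀ i j, i ≠ j →
      ¬ Language.order.ElementarilyEquivalent (Deg (classes Φ i)) (Deg (classes Φ j)) :=
  main

end Pool.Agent.Results.MP_a51f10_lc.PairwiseInequivalent
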